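import Pool.Agent.Run7.h704.LW.MOD2

/-! Piece MOD, part 3: simplicity from the property of branches, the formula which is not low. -/

set_option autoImplicit false

namespace Run7.h520.LW

open FirstOrder FirstOrder.Language Filter

namespace MOD

section general

variable {L : FirstOrder.Language.{0, 0}} {N : Type} [L.Structure N]

/-- the ultrapower -/
abbrev UP {I : Type} (U : Ultrafilter I) (N : Type) : Type := (U : Filter I).Product (fun _ => N)

/-- the class of a function -/
def cls {I : Type} (U : Ultrafilter I) {N : Type} (x : I → N) : UP U N :=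
  ((x : I → N) : (U : Filter I).Product (fun _ => N))

/-- Łoś for ultrapowers. -/
theorem los [Nonempty N] {I : Type} (U : Ultrafilter I) {β : Type} (φ : L.Formula β)
    (x : β → I → N) :
    (φ.Realize fun i => cls U (x i)) ↔
      ∀ᶠ a : I in (U : Filter I), φ.Realize fun i => x i a :=
  Ultraproduct.realize_formula_cast (u := U) (M := fun _ => N) φ x

/-- the diagonal embedding -/
noncomputable def diag [Nonempty N] {I : Type} (U : Ultrafilter I) :
    N ↪ₑ[L] UP U N where
  toFun x := cls U (fun _ => x)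
  map_formula' := by
    intro n φ x
    have h := los U φ (fun i _ => x i)
    rw [eventually_const] at h
    exact h

end general

end MOD

open MOD

section

variable {D : Type} (P : Geo D)

/-- infinitely many indices with the same type -/
theorem Geo.pigeon {N : Type} [(lang D).Structure N] (hN : N ⊨ P.T) {α : Type} [Finite α]
    (t : ℕ → α → N) : ∃ i0 : ℕ, {i | STp (L := lang D) (t i) (t i0)}.Infinite := by
  obtain ⟨F, hF, hF2⟩ := P.cov' α
  choose g hg hg' using fun n => hF2 hN (t n)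
  have : Finite F := hF
  obtain ⟨y, hy⟩ := Finite.exists_infinite_fiber (fun n : ℕ => (⟨g n, hg n⟩ : F))
  have hinf : {n | (⟨g n, hg n⟩ : F) = y}.Infinite := Set.infinite_coe_iff.1 hy
  obtain ⟨i0, hi0⟩ := hinf.nonempty
  refine ⟨i0, hinf.mono ?_⟩
  intro i hi
  have h1 : g i = y := congrArg Subtype.val hi
  have h2 : g i0 = y := congrArg Subtype.val hi0
  have h3 := hg' i
  have h4 := hg' i0
  rw [h1] at h3
  rw [h2] at h4
  exact h3.symm.trans h4

theorem Geo.simple (M : Type) [(lang D).Structure M] (hM : M ⊨ P.T) (hne : Nonempty M)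
    (n m k : ℕ) (φ : (lang D).Formula (Fin n ⊕ Fin m)) (p : List ℕ → Fin m → M)
    (hp : ∀ (η : ℕ → ℕ) (J : ℕ), ∃ a : Fin n → M, ∀ j < J,
      φ.Realize (Sum.elim a (p (List.ofFn (fun i : Fin j => η i))))) :
    ∃ s : List ℕ, ∃ S : Finset ℕ, S.card = k ∧
      ∃ a : Fin n → M, ∀ i ∈ S, φ.Realize (Sum.elim a (p (s ++ [i]))) := by
  classical
  -- the parameters of a node
  let A : ∀ s : List ℕ, Fin s.length × Fin m → M := fun s x => p (s.take (x.1 + 1)) x.2
  have hpig : ∀ s : List ℕ, ∃ t0 : ℕ, {t | STp (L := lang D)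
      (Sum.elim (A s) (p (s ++ [t]))) (Sum.elim (A s) (p (s ++ [t0])))}.Infinite := fun s =>
    P.pigeon hM (fun t => Sum.elim (A s) (p (s ++ [t])))
  choose t0 ht0 using hpig
  -- the branch
  let s : ℕ → List ℕ := fun j => Nat.rec [] (fun _ l => l ++ [t0 l]) j
  have hs0 : s 0 = [] := rfl
  have hs1 : ∀ j, s (j + 1) = s j ++ [t0 (s j)] := fun j => rfl
  have hlen : ∀ j, (s j).length = j := by
    intro j
    induction j with
    | zero => rfl
    | succ j ih => rw [hs1, List.length_append, ih]; rfl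
  have hofn : ∀ j, List.ofFn (fun i : Fin j => t0 (s i)) = s j := by
    intro j
    induction j with
    | zero => rfl
    | succ j ih =>
      rw [List.ofFn_succ', hs1]
      simp only [Fin.val_castSucc, Fin.val_last, List.concat_eq_append]
      rw [ih]
  have htake : ∀ j i, i ≤ j → (s j).take i = s i := by
    intro j
    induction j with
    | zero =>
      intro i hi
      have : i = 0 := by omega
      subst this
      rfl
    | succ j ih =>
      intro i hi
      rcases Nat.lt_or_ge i (j + 1) with h | h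
      · rw [hs1, List.take_append_of_le_length (by rw [hlen]; omega), ih i (by omega)]
      · have : i = j + 1 := by omega
        subst this
        exact List.take_of_length_le (hlen (j + 1)).le
  -- injective enumerations
  let τ : ℕ → ℕ → ℕ := fun j t => ((ht0 (s j)).natEmbedding _ t : ℕ)
  have hτinj : ∀ j, Function.Injective (τ j) := fun j a b hab =>
    ((ht0 (s j)).natEmbedding _).injective (Subtype.ext hab)
  have hτ : ∀ j t, STp (L := lang D)
      (Sum.elim (A (s j)) (p (s j ++ [τ j t]))) (Sum.elim (A (s j)) (p (s (j + 1)))) :=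
    fun j t => ((ht0 (s j)).natEmbedding _ t).2
  -- the ultrapower
  choose a ha using hp (fun i => t0 (s i))
  let U : Ultrafilter ℕ := Ultrafilter.of atTop
  have hU : (U : Filter ℕ) ≤ atTop := Ultrafilter.of_le _
  let N' : Type := UP U M
  let δ : M ↪ₑ[lang D] N' := diag U
  have hN' : N' ⊨ P.T := P.model_of_emb hM δ
  let u : Fin n → N' := fun i => cls U (fun J => a J i)
  have hu : ∀ j, φ.Realize (Sum.elim u (δ ∘ p (s j))) := by
    intro j
    have e1 : Sum.elim u (δ ∘ p (s j)) = fun x => cls U ((Sum.elim (fun i J => a J i)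
        (fun i _ => p (s j) i) : (Fin n ⊕ Fin m) → ℕ → M) x) := by
      funext x
      rcases x with x | x <;> rfl
    rw [e1, los]
    apply hU
    filter_upwards [eventually_gt_atTop j] with J hJ
    have h1 := ha J j hJ
    rw [hofn j] at h1
    convert h1 using 1
    funext x
    rcases x with x | x <;> rfl
  -- the transfer
  let E : ℕ ≃ ℕ ⊕ (ℕ × ℕ) := (Denumerable.eqv (ℕ ⊕ (ℕ × ℕ))).symm
  let d : ℕ → (Fin n ⊕ Fin m) → N' := fun r => Sum.elim u
    (Sum.elim (fun j => δ ∘ p (s (j + 1))) (fun q => δ ∘ p (s q.1 ++ [τ q.1 q.2])) (E r))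
  obtain ⟨d', hd'⟩ := P.seq_transfer' hN' d
  let uD : Fin n → P.Car := fun i => d' 0 (Sum.inl i)
  let cD : ℕ → Fin m → P.Car := fun j i => d' (E.symm (Sum.inl j)) (Sum.inr i)
  let cD' : ℕ → ℕ → Fin m → P.Car := fun j t i => d' (E.symm (Sum.inr (j, t))) (Sum.inr i)
  have hdc : ∀ j i, d (E.symm (Sum.inl j)) (Sum.inr i) = δ (p (s (j + 1)) i) := by
    intro j i
    simp [d]
  have hdc' : ∀ j t i, d (E.symm (Sum.inr (j, t))) (Sum.inr i) = δ (p (s j ++ [τ j t]) i) := by
    intro j t i
    simp [d]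
  have hdu : ∀ i, d 0 (Sum.inl i) = u i := fun i => rfl
  have hbranch : ∀ j t, P.Sim (Sum.elim (fun x : Fin j × Fin m => cD x.1 x.2) (cD' j t))
      (Sum.elim (fun x : Fin j × Fin m => cD x.1 x.2) (cD j)) := by
    intro j t
    have h1 : STp (L := lang D) (Sum.elim (fun x : Fin j × Fin m => cD x.1 x.2) (cD' j t))
        (Sum.elim (fun x : Fin j × Fin m => δ (p (s (x.1 + 1)) x.2))
          (δ ∘ p (s j ++ [τ j t]))) := by
      have h := hd' ((Fin j × Fin m) ⊕ Fin m)
        (Sum.elim (fun x => (E.symm (Sum.inl x.1), Sum.inr x.2))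
          (fun i => (E.symm (Sum.inr (j, t)), Sum.inr i)))
      convert h using 1
      · funext x
        rcases x with x | x <;> rfl
      · funext x
        rcases x with x | x
        · exact (hdc _ _).symm
        · exact (hdc' _ _ _).symm
    have h2 : STp (L := lang D) (Sum.elim (fun x : Fin j × Fin m => cD x.1 x.2) (cD j))
        (Sum.elim (fun x : Fin j × Fin m => δ (p (s (x.1 + 1)) x.2))
          (δ ∘ p (s (j + 1)))) := by
      have h := hd' ((Fin j × Fin m) ⊕ Fin m)
        (Sum.elim (fun x => (E.symm (Sum.inl x.1), Sum.inr x.2))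
          (fun i => (E.symm (Sum.inl j), Sum.inr i)))
      convert h using 1
      · funext x
        rcases x with x | x <;> rfl
      · funext x
        rcases x with x | x
        · exact (hdc _ _).symm
        · exact (hdc _ _).symm
    have h3 : STp (L := lang D)
        (Sum.elim (fun x : Fin j × Fin m => p (s (x.1 + 1)) x.2) (p (s j ++ [τ j t])))
        (Sum.elim (fun x : Fin j × Fin m => p (s (x.1 + 1)) x.2) (p (s (j + 1)))) := by
      have h := (hτ j t).comp (Sum.elim
        (fun x => Sum.inl ((⟨x.1, by rw [hlen]; exact x.1.2⟩ : Fin (s j).length), x.2))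
        (fun i => Sum.inr i) : (Fin j × Fin m) ⊕ Fin m → _)
      have eA : ∀ x : Fin j × Fin m,
          A (s j) ((⟨x.1, by rw [hlen]; exact x.1.2⟩ : Fin (s j).length), x.2) =
            p (s (x.1 + 1)) x.2 := by
        intro x
        show p ((s j).take (x.1 + 1)) x.2 = _
        rw [htake j (x.1 + 1) x.1.2]
      convert h using 1
      · funext x
        rcases x with x | x
        · exact (eA x).symm
        · rfl
      · funext x
        rcases x with x | x
        · exact (eA x).symm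
        · rfl
    have h4 := STp.map δ (Sum.elim (fun x : Fin j × Fin m => p (s (x.1 + 1)) x.2)
      (p (s j ++ [τ j t])))
    have h5 := STp.map δ (Sum.elim (fun x : Fin j × Fin m => p (s (x.1 + 1)) x.2)
      (p (s (j + 1))))
    rw [Sum.comp_elim] at h4 h5
    exact (P.sim_iff _ _).2 (h1.trans ((h4.symm.trans (h3.trans h5)).trans h2.symm))
  obtain ⟨j, S, u', hS, hu'⟩ : ∃ (j : ℕ) (S : Finset ℕ) (u' : Fin n → P.Car), S.card = k ∧
      ∀ t ∈ S, P.S (Sum.elim u' (cD' j t)) (Sum.elim uD (cD j)) :=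
    P.branch n m k uD cD cD' hbranch
  -- `φ` holds in the geometry
  have hφD : φ.Realize (Sum.elim uD (cD j)) := by
    have h := hd' (Fin n ⊕ Fin m) (Sum.elim (fun i => (0, Sum.inl i))
      (fun i => (E.symm (Sum.inl j), Sum.inr i)))
    have h1 : STp (L := lang D) (Sum.elim uD (cD j)) (Sum.elim u (δ ∘ p (s (j + 1)))) := by
      convert h using 1
      · funext x
        rcases x with x | x <;> rfl
      · funext x
        rcases x with x | x
        · rfl
        · exact (hdc _ _).symm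
    exact (h1 φ).2 (hu (j + 1))
  have hφS : ∀ t ∈ S, φ.Realize (Sum.elim u' (cD' j t)) := fun t ht =>
    (P.inv (hu' t ht) φ).2 hφD
  -- back to `M`
  have h6 : STp (L := lang D) (fun x : S × Fin m => cD' j x.1 x.2)
      (fun x : S × Fin m => p (s j ++ [τ j x.1]) x.2) := by
    have h := hd' (S × Fin m) (fun x => (E.symm (Sum.inr (j, (x.1 : ℕ))), Sum.inr x.2))
    have h7 := STp.map δ (fun x : S × Fin m => p (s j ++ [τ j x.1]) x.2)
    refine STp.trans ?_ h7.symm
    convert h using 1
    funext x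
    exact (hdc' _ _ _).symm
  obtain ⟨b, hb⟩ := P.stp_ext P.model hM h6 u'
  refine ⟨s j, S.map ⟨τ j, hτinj j⟩, by rw [Finset.card_map, hS], b, ?_⟩
  intro i hi
  obtain ⟨t, ht, rfl⟩ := Finset.mem_map.1 hi
  have h8 := hb.comp (Sum.elim (fun r => Sum.inr r) (fun y => Sum.inl ((⟨t, ht⟩ : S), y)) :
    Fin n ⊕ Fin m → _)
  have h9 : STp (L := lang D) (Sum.elim u' (cD' j t)) (Sum.elim b (p (s j ++ [τ j t]))) := by
    convert h8 using 1
    all_goals
      funext x
      rcases x with x | x <;> rfl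
  exact (h9 φ).1 (hφS t ht)

/-- the relation `R` as a formula -/
theorem Geo.formulaR : ∃ φ : (lang D).Formula (Fin 1 ⊕ Fin 1), ∀ x y : Fin 1 → P.Car,
    φ.Realize (Sum.elim x y) ↔ P.R (x 0) (y 0) := by
  obtain ⟨F, hF, hF2⟩ : ∃ F : Set (Fin 1 ⊕ Fin 1 → P.Car), F.Finite ∧
    ∀ t, ∃ s ∈ F, P.S s t := P.fin (Fin 1 ⊕ Fin 1)
  let F' : Set (Fin 1 ⊕ Fin 1 → P.Car) := {s ∈ F | P.R (s (Sum.inl 0)) (s (Sum.inr 0))}
  have hF' : F'.Finite := hF.subset (fun s hs => hs.1)
  have : Finite F' := hF'
  have hinv : ∀ s t : Fin 1 ⊕ Fin 1 → P.Car, P.S s t → P.R (s (Sum.inl 0)) (s (Sum.inr 0)) →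
      P.R (t (Sum.inl 0)) (t (Sum.inr 0)) := by
    intro s t h h'
    have h2 : P.Sim (s ∘ ![Sum.inl 0, Sum.inr 0]) (t ∘ ![Sum.inl 0, Sum.inr 0]) := P.comp _ h
    exact P.Rinv h2 h'
  refine ⟨Formula.iSup (fun s : F' => P.rho (s : Fin 1 ⊕ Fin 1 → P.Car)), ?_⟩
  intro x y
  rw [Formula.realize_iSup]
  constructor
  · rintro ⟨s, hs⟩
    exact hinv _ _ ((P.rho_car _ _).1 hs) s.2.2
  · intro h
    obtain ⟨s, hs, hs2⟩ := hF2 (Sum.elim x y)
    exact ⟨⟨s, hs, hinv _ _ hs2.symm h⟩, (P.rho_car _ _).2 hs2⟩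

end

/-- piece MOD -/
theorem t_MOD : S_MOD := by
  intro D _ P hall
  obtain ⟨φ, hφ⟩ := P.formulaR
  obtain ⟨k, hk⟩ := hall (lang D) P.T lang_card P.isComplete P.categorical
    (fun M _ hM _ n m k φ p hp => P.simple M hM inferInstance n m k φ p hp) 1 1 φ
  obtain ⟨b, hb1, ⟨S1, hS1⟩, ⟨S2, hS2, a, ha⟩⟩ := P.low k
  have hM : P.Car ⊨ P.T := P.model
  have hne : Nonempty P.Car := P.nonempty
  refine @hk P.Car _ hM hne (fun i _ => b i) ?_ ⟨S1, ?_⟩ S2 hS2 ⟨fun _ => a, ?_⟩
  · intro N ψ f g hf hg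
    have h1 : P.S (fun q : Fin N × Fin 1 => (b (f q.1) : P.Car))
        (fun q : Fin N × Fin 1 => (b (g q.1) : P.Car)) :=
      P.comp (fun q : Fin N × Fin 1 => q.1) (hb1 N f g hf hg)
    exact P.inv h1 ψ
  · rintro ⟨x, hx⟩
    exact hS1 ⟨x 0, fun i hi => (hφ _ _).1 (hx i hi)⟩
  · intro i hi
    exact (hφ _ _).2 (ha i hi)

end Run7.h520.LW
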