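import Pool.Agent.Run7.h520.LW.ModDef

/-! Piece MOD, part 1: the language and the theory attached to a geometry, types over the empty
set (adapted from `Pool/Agent/Run7/h540/{Lang, M1}.lean`). -/

set_option autoImplicit false

namespace Run7.h520.LW

open FirstOrder FirstOrder.Language

/-- One relation symbol for every tuple: it names the class of the tuple. -/
def lang (D : Type) : FirstOrder.Language.{0, 0} := ⟨fun _ => Empty, fun n => Fin n → D⟩

/-- The carrier. -/
def Geo.Car {D : Type} (_ : Geo D) : Type := D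

instance Geo.instStr {D : Type} (P : Geo D) : (lang D).Structure P.Car where
  funMap := fun {_} f => f.elim
  RelMap := fun {_} r t => P.Sim r t

/-- The theory. -/
def Geo.T {D : Type} (P : Geo D) : (lang D).Theory := (lang D).completeTheory P.Car

/-- Equality of types over the empty set, for tuples of two structures. -/
def STp {L : FirstOrder.Language.{0, 0}} {N N' : Type} [L.Structure N] [L.Structure N']
    {α : Type} (s : α → N) (t : α → N') : Prop :=
  ∀ φ : L.Formula α, φ.Realize s ↔ φ.Realize t



section general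

variable {L : FirstOrder.Language.{0, 0}} {N N' N'' : Type} [L.Structure N] [L.Structure N']
  [L.Structure N''] {α β γ : Type}

theorem STp.rfl' (s : α → N) : STp (L := L) s s := fun _ => Iff.rfl

theorem STp.symm {s : α → N} {t : α → N'} (h : STp (L := L) s t) : STp (L := L) t s :=
  fun φ => (h φ).symm

theorem STp.trans {s : α → N} {t : α → N'} {r : α → N''} (h : STp (L := L) s t)
    (h' : STp (L := L) t r) : STp (L := L) s r := fun φ => (h φ).trans (h' φ)

theorem STp.comp {s : α → N} {t : α → N'} (h : STp (L := L) s t) (g : β → α) :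
    STp (L := L) (s ∘ g) (t ∘ g) := fun φ => by
  have := h (φ.relabel g)
  rwa [Formula.realize_relabel, Formula.realize_relabel] at this

theorem STp.eq {s : α → N} {t : α → N'} (h : STp (L := L) s t) {i j : α} (hij : s i = s j) :
    t i = t j := by
  have := (h (Term.equal (Term.var i) (Term.var j))).1 (by simp [Formula.realize_equal, hij])
  simpa [Formula.realize_equal] using this

theorem STp.map (j : N ↪ₑ[L] N') (s : α → N) : STp (L := L) s (j ∘ s) :=
  fun φ => (j.map_formula φ s).symm

end general

section

variable {D : Type} (P : Geo D) {α β γ : Type}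

/-! ### M1b -/

theorem Geo.model : P.Car ⊨ P.T := inferInstanceAs (P.Car ⊨ (lang D).completeTheory P.Car)

theorem Geo.nonempty : Nonempty P.Car := ⟨(P.low 0).choose 0⟩

theorem Geo.isComplete : P.T.IsComplete := by
  have := P.nonempty
  exact completeTheory.isComplete (lang D) P.Car

/-- a term of the language is a variable -/
theorem term_var {σ : Type} (t : (lang D).Term σ) : ∃ v : σ, t = Term.var v := by
  cases t with
  | var v => exact ⟨v, rfl⟩
  | func f _ => exact f.elim

/-- the relation on the carrier -/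
def Geo.S {α : Type} (s t : α → P.Car) : Prop := P.Sim s t

variable {P} in
theorem Geo.S.comp {α β : Type} {s t : α → P.Car} (h : P.S s t) (g : β → α) :
    P.S (s ∘ g) (t ∘ g) := P.comp g h

variable {P} in
theorem Geo.S.symm {α : Type} {s t : α → P.Car} (h : P.S s t) : P.S t s := P.symm h

variable {P} in
theorem Geo.S.trans {α : Type} {s t r : α → P.Car} (h : P.S s t) (h' : P.S t r) : P.S s r :=
  P.trans h h'

theorem Geo.S.rfl' {α : Type} [Finite α] (s : α → P.Car) : P.S s s := P.refl s

/-- a tuple as a relation symbol -/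
def Geo.sym {n : ℕ} (s : Fin n → P.Car) : (lang D).Relations n := s

theorem Geo.relMap_sym {n : ℕ} (s t : Fin n → P.Car) :
    Structure.RelMap (P.sym s) t ↔ P.S s t := Iff.rfl

theorem Geo.inv_aux [Finite α] {n : ℕ} (φ : (lang D).BoundedFormula α n) :
    ∀ (v v' : α → P.Car) (x x' : Fin n → P.Car),
      P.S (Sum.elim v x) (Sum.elim v' x') → (φ.Realize v x ↔ φ.Realize v' x') := by
  induction φ with
  | falsum => intro v v' x x' _; exact Iff.rfl
  | equal t₁ t₂ =>
    intro v v' x x' h
    obtain ⟨i, rfl⟩ := term_var t₁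
    obtain ⟨j, rfl⟩ := term_var t₂
    simp only [BoundedFormula.Realize, Term.realize_var]
    exact ⟨fun e => P.eq h e, fun e => P.eq (P.symm h) e⟩
  | @rel n l R ts =>
    intro v v' x x' h
    choose w hw using fun i => term_var (ts i)
    simp only [BoundedFormula.Realize]
    have e1 : (fun i => (ts i).realize (Sum.elim v x)) = (Sum.elim v x) ∘ w := by
      funext i; simp [hw]
    have e2 : (fun i => (ts i).realize (Sum.elim v' x')) = (Sum.elim v' x') ∘ w := by
      funext i; simp [hw]
    rw [e1, e2]
    have hc := h.comp w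
    obtain ⟨R', hR⟩ : ∃ R' : Fin l → P.Car, R = P.sym R' := ⟨R, rfl⟩
    rw [hR, P.relMap_sym, P.relMap_sym]
    exact ⟨fun e => e.trans hc, fun e => e.trans hc.symm⟩
  | imp _ _ ih₁ ih₂ =>
    intro v v' x x' h
    simp only [BoundedFormula.Realize]
    rw [ih₁ v v' x x' h, ih₂ v v' x x' h]
  | @all n φ ih =>
    have key : ∀ (v v' : α → P.Car) (x x' : Fin n → P.Car),
        P.S (Sum.elim v x) (Sum.elim v' x') → (∀ a, φ.Realize v (Fin.snoc x a)) →
          ∀ a, φ.Realize v' (Fin.snoc x' a) := by
      intro v v' x x' h hall a'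
      obtain ⟨y, hy⟩ : ∃ y : Fin 1 → P.Car,
          P.S (Sum.elim (Sum.elim v' x') (fun _ : Fin 1 => a')) (Sum.elim (Sum.elim v x) y) :=
        P.forth (P.symm h) (fun _ : Fin 1 => a')
      have h2 := hy.comp
        (Sum.elim (fun i => Sum.inl (Sum.inl i))
          (Fin.snoc (α := fun _ => (α ⊕ Fin n) ⊕ Fin 1) (fun i => Sum.inl (Sum.inr i))
            (Sum.inr 0)))
      have e1 : (Sum.elim (Sum.elim v' x') (fun _ : Fin 1 => a')) ∘
          (Sum.elim (fun i => Sum.inl (Sum.inl i))
          (Fin.snoc (α := fun _ => (α ⊕ Fin n) ⊕ Fin 1) (fun i => Sum.inl (Sum.inr i))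
            (Sum.inr 0))) = Sum.elim v' (Fin.snoc x' a') := by
        funext i
        rcases i with i | i
        · simp
        · refine Fin.lastCases ?_ (fun i => ?_) i <;> simp
      have e2 : (Sum.elim (Sum.elim v x) y) ∘
          (Sum.elim (fun i => Sum.inl (Sum.inl i))
          (Fin.snoc (α := fun _ => (α ⊕ Fin n) ⊕ Fin 1) (fun i => Sum.inl (Sum.inr i))
            (Sum.inr 0))) = Sum.elim v (Fin.snoc x (y 0)) := by
        funext i
        rcases i with i | i
        · simp
        · refine Fin.lastCases ?_ (fun i => ?_) i <;> simp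
      rw [e1, e2] at h2
      exact (ih v' v (Fin.snoc x' a') (Fin.snoc x (y 0)) h2).2 (hall (y 0))
    intro v v' x x' h
    simp only [BoundedFormula.Realize]
    exact ⟨key v v' x x' h, key v' v x' x (P.symm h)⟩

theorem Geo.inv [Finite α] {s t : α → P.Car} (h : P.S s t) : STp (L := lang D) s t := by
  intro φ
  refine P.inv_aux φ s t default default ?_
  have h2 := h.comp (Sum.elim id (fun i : Fin 0 => i.elim0))
  have e : ∀ r : α → P.Car, r ∘ (Sum.elim id (fun i : Fin 0 => i.elim0)) =
      Sum.elim r (default : Fin 0 → P.Car) := by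
    intro r
    funext i
    rcases i with i | i
    · rfl
    · exact i.elim0
  rwa [e s, e t] at h2

/-- the formula naming the class of `s` -/
noncomputable def Geo.rho [Finite α] (s : α → P.Car) : (lang D).Formula α :=
  Relations.formula (P.sym (s ∘ (Finite.equivFin α).symm))
    (fun i => Term.var ((Finite.equivFin α).symm i))

theorem Geo.rho_car [Finite α] (s t : α → P.Car) : (P.rho s).Realize t ↔ P.S s t := by
  unfold Geo.rho
  rw [Formula.realize_rel]
  have e : (fun i => Term.realize t ((Term.var ((Finite.equivFin α).symm i) :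
      (lang D).Term α))) = t ∘ (Finite.equivFin α).symm := by
    funext i; simp
  rw [e, P.relMap_sym]
  constructor
  · intro h
    have h2 := h.comp (Finite.equivFin α)
    simpa [Function.comp_assoc] using h2
  · intro h
    exact h.comp (Finite.equivFin α).symm

theorem Geo.sim_iff [Finite α] (s t : α → P.Car) :
    P.Sim s t ↔ STp (L := lang D) s t := by
  refine ⟨P.inv, fun h => ?_⟩
  exact (P.rho_car s t).1 ((h (P.rho s)).1 ((P.rho_car s s).2 (P.refl s)))

/-- sentences true in `P.Car` hold in all models of the theory -/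
theorem Geo.transfer {N : Type} [(lang D).Structure N] (hN : N ⊨ P.T)
    (φ : (lang D).Sentence) (h : P.Car ⊨ φ) : N ⊨ φ :=
  hN.realize_of_mem φ h

theorem Geo.transfer_all [Finite α] {N : Type} [(lang D).Structure N] (hN : N ⊨ P.T)
    (φ : (lang D).Formula α) (h : ∀ t : α → P.Car, φ.Realize t) (t : α → N) :
    φ.Realize t := by
  have h1 : P.Car ⊨ ((φ.relabel (Sum.inr : α → Empty ⊕ α)).iAlls α) := by
    rw [Sentence.Realize, Formula.realize_iAlls]
    intro i
    rw [Formula.realize_relabel]
    exact h _
  have h2 := P.transfer hN _ h1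
  rw [Sentence.Realize, Formula.realize_iAlls] at h2
  have h3 := h2 t
  rw [Formula.realize_relabel] at h3
  exact h3

theorem Geo.rho_iff [Finite α] (s : α → P.Car) {N : Type} [(lang D).Structure N]
    (hN : N ⊨ P.T) (t : α → N) : (P.rho s).Realize t ↔ STp (L := lang D) s t := by
  constructor
  · intro h
    have key : ∀ ψ : (lang D).Formula α, ψ.Realize s → ψ.Realize t := by
      intro ψ hψ
      have h1 : ∀ r : α → P.Car, ((P.rho s).imp ψ).Realize r := by
        intro r
        rw [Formula.realize_imp]
        intro hr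
        exact (P.inv ((P.rho_car s r).1 hr) ψ).1 hψ
      have h2 := P.transfer_all hN _ h1 t
      rw [Formula.realize_imp] at h2
      exact h2 h
    intro φ
    refine ⟨key φ, fun ht => ?_⟩
    by_contra hs
    have := key φ.not (by rwa [Formula.realize_not])
    rw [Formula.realize_not] at this
    exact this ht
  · intro h
    exact (h _).1 ((P.rho_car s s).2 (P.refl s))

/-- every formula is invariant, and every class is defined by a formula in all models -/
theorem Geo.isol [Finite α] (s : α → P.Car) : ∃ ρ : (lang D).Formula α,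
    ∀ (N : Type) [(lang D).Structure N], N ⊨ P.T → ∀ t : α → N,
      ρ.Realize t ↔ STp (L := lang D) s t :=
  ⟨P.rho s, fun _ _ hN t => P.rho_iff s hN t⟩

theorem Geo.cov [Finite α] {N : Type} [(lang D).Structure N] (hN : N ⊨ P.T) (t : α → N) :
    ∃ s : α → P.Car, STp (L := lang D) s t := by
  obtain ⟨F, hF, hF2⟩ : ∃ F : Set (α → P.Car), F.Finite ∧ ∀ t, ∃ s ∈ F, P.S s t := P.fin α
  have : Finite F := hF
  have h1 : ∀ r : α → P.Car, (Formula.iSup (fun s : F => P.rho (s : α → P.Car))).Realize r := by
    intro r
    rw [Formula.realize_iSup]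
    obtain ⟨s, hs, hs2⟩ := hF2 r
    exact ⟨⟨s, hs⟩, (P.rho_car s r).2 hs2⟩
  have h2 := P.transfer_all hN _ h1 t
  rw [Formula.realize_iSup] at h2
  obtain ⟨s, hs⟩ := h2
  exact ⟨s, (P.rho_iff _ hN t).1 hs⟩

theorem Geo.stp_ext [Finite α] [Finite β] {N N' : Type} [(lang D).Structure N]
    [(lang D).Structure N'] (hN : N ⊨ P.T) (hN' : N' ⊨ P.T) {s : α → N} {s' : α → N'}
    (h : STp (L := lang D) s s') (t : β → N) :
    ∃ t' : β → N', STp (L := lang D) (Sum.elim s t) (Sum.elim s' t') := by
  obtain ⟨r, hr⟩ := P.cov hN (Sum.elim s t)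
  have h1 : ((P.rho r).iExs β).Realize s := by
    rw [Formula.realize_iExs]
    exact ⟨t, (P.rho_iff r hN _).2 hr⟩
  have h2 := (h _).1 h1
  rw [Formula.realize_iExs] at h2
  obtain ⟨t', ht'⟩ := h2
  exact ⟨t', hr.symm.trans ((P.rho_iff r hN' _).1 ht')⟩

theorem Geo.model_of_emb {N N' : Type} [(lang D).Structure N] [(lang D).Structure N']
    (hN : N ⊨ P.T) (j : N ↪ₑ[lang D] N') : N' ⊨ P.T :=
  (j.theory_model_iff P.T).1 hN

end

end Run7.h520.LW
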