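import Pool.Agent.Run7.h704.LW.MOD1

/-! Piece MOD, part 2: transfer of sequences of tuples, and `ℵ₀`-categoricity. -/

set_option autoImplicit false

namespace Run7.h520.LW

open FirstOrder FirstOrder.Language

section

variable {D : Type} (P : Geo D) {α β γ : Type}

theorem Geo.cov' (α : Type) [Finite α] : ∃ F : Set (α → P.Car), F.Finite ∧
    ∀ {N : Type} [(lang D).Structure N] (_ : N ⊨ P.T) (t : α → N),
      ∃ s ∈ F, STp (L := lang D) s t := by
  obtain ⟨F, hF, hF2⟩ : ∃ F : Set (α → P.Car), F.Finite ∧ ∀ t, ∃ s ∈ F, P.S s t := P.fin α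
  refine ⟨F, hF, ?_⟩
  intro N _ hN t
  have : Finite F := hF
  have h1 : ∀ r : α → P.Car, (Formula.iSup (fun s : F => P.rho (s : α → P.Car))).Realize r := by
    intro r
    rw [Formula.realize_iSup]
    obtain ⟨s, hs, hs2⟩ := hF2 r
    exact ⟨⟨s, hs⟩, (P.rho_car s r).2 hs2⟩
  have h2 := P.transfer_all hN _ h1 t
  rw [Formula.realize_iSup] at h2
  obtain ⟨s, hs⟩ := h2
  exact ⟨s, s.2, (P.rho_iff _ hN t).1 hs⟩

theorem Geo.seq_transfer [Finite β] {N : Type} [(lang D).Structure N] (hN : N ⊨ P.T)
    (c : ℕ → β → N) : ∃ c' : ℕ → β → P.Car, ∀ m : ℕ,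
      STp (L := lang D) (fun p : Fin m × β => c' p.1 p.2) (fun p : Fin m × β => c p.1 p.2) := by
  classical
  have step : ∀ m (f : ℕ → β → P.Car),
      STp (L := lang D) (fun p : Fin m × β => f p.1 p.2) (fun p : Fin m × β => c p.1 p.2) →
      ∃ g : ℕ → β → P.Car, (∀ i < m, g i = f i) ∧
        STp (L := lang D) (fun p : Fin (m + 1) × β => g p.1 p.2)
          (fun p : Fin (m + 1) × β => c p.1 p.2) := by
    intro m f hf
    obtain ⟨t', ht'⟩ := P.stp_ext hN P.model hf.symm (c m)
    refine ⟨Function.update f m t', fun i hi => by simp [Function.update, hi.ne], ?_⟩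
    have h2 := ht'.symm.comp (fun p : Fin (m + 1) × β =>
      if h : (p.1 : ℕ) < m then (Sum.inl (⟨p.1, h⟩, p.2) : (Fin m × β) ⊕ β) else Sum.inr p.2)
    convert h2 using 1
    · funext p
      by_cases h : (p.1 : ℕ) < m
      · simp [h, Function.update, h.ne]
      · have h' : (p.1 : ℕ) = m := by omega
        simp [h', Function.update]
    · funext p
      by_cases h : (p.1 : ℕ) < m
      · simp [h]
      · have h' : (p.1 : ℕ) = m := by omega
        simp [h']
  obtain ⟨z⟩ := P.nonempty
  have h0 : STp (L := lang D) (fun p : Fin 0 × β => (fun _ _ => z : ℕ → β → P.Car) p.1 p.2)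
      (fun p : Fin 0 × β => c p.1 p.2) := by
    obtain ⟨s, hs⟩ := P.cov hN (fun p : Fin 0 × β => c p.1 p.2)
    convert hs using 1
    funext p
    exact p.1.elim0
  let X : ℕ → Type := fun m => {f : ℕ → β → P.Car //
    STp (L := lang D) (fun p : Fin m × β => f p.1 p.2) (fun p : Fin m × β => c p.1 p.2)}
  let F : ∀ m, X m := fun m => Nat.rec (motive := X) ⟨fun _ _ => z, h0⟩
    (fun m f => ⟨(step m f.1 f.2).choose, (step m f.1 f.2).choose_spec.2⟩) m
  have hF : ∀ m, ∀ i < m, (F (m + 1)).1 i = (F m).1 i := fun m i hi =>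
    (step m (F m).1 (F m).2).choose_spec.1 i hi
  have hF2 : ∀ n m, m ≤ n → ∀ i < m, (F n).1 i = (F m).1 i := by
    intro n m hmn
    induction hmn with
    | refl => intro i _; rfl
    | step h ih =>
      intro i hi
      rw [hF _ i (lt_of_lt_of_le hi h), ih i hi]
  refine ⟨fun m => (F (m + 1)).1 m, fun m => ?_⟩
  have h1 := (F m).2
  convert h1 using 1
  funext p
  rw [hF2 m (p.1 + 1) p.1.2 p.1 (Nat.lt_succ_self _)]

/-- transfer of a sequence of tuples, for arbitrary finite subfamilies -/
theorem Geo.seq_transfer' [Finite β] {N : Type} [(lang D).Structure N] (hN : N ⊨ P.T)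
    (c : ℕ → β → N) : ∃ c' : ℕ → β → P.Car, ∀ (α : Type) [Finite α] (g : α → ℕ × β),
      STp (L := lang D) (fun a => c' (g a).1 (g a).2) (fun a => c (g a).1 (g a).2) := by
  obtain ⟨c', hc'⟩ := P.seq_transfer hN c
  refine ⟨c', fun α _ g => ?_⟩
  obtain ⟨M, hM⟩ : ∃ M : ℕ, ∀ a, (g a).1 < M := by
    obtain ⟨M, hM⟩ := (Set.finite_range (fun a => (g a).1)).bddAbove
    exact ⟨M + 1, fun a => Nat.lt_succ_of_le (hM ⟨a, rfl⟩)⟩
  exact (hc' M).comp (fun a => ((⟨(g a).1, hM a⟩ : Fin M), (g a).2))

/-- back and forth between two countable models -/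
theorem Geo.backforth {N N' : Type} [(lang D).Structure N] [(lang D).Structure N']
    (hN : N ⊨ P.T) (hN' : N' ⊨ P.T) (e : ℕ → N) (e' : ℕ → N') :
    ∃ (f : ℕ → N) (g : ℕ → N'),
      (∀ m, STp (L := lang D) (fun i : Fin m => f i) (fun i : Fin m => g i)) ∧
      (∀ n, f (2 * n) = e n) ∧ ∀ n, g (2 * n + 1) = e' n := by
  classical
  have step : ∀ m (fg : (ℕ → N) × (ℕ → N')),
      STp (L := lang D) (fun i : Fin m => fg.1 i) (fun i : Fin m => fg.2 i) →
      ∃ fg' : (ℕ → N) × (ℕ → N'), (∀ i < m, fg'.1 i = fg.1 i ∧ fg'.2 i = fg.2 i) ∧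
        (∀ n, m = 2 * n → fg'.1 m = e n) ∧ (∀ n, m = 2 * n + 1 → fg'.2 m = e' n) ∧
        STp (L := lang D) (fun i : Fin (m + 1) => fg'.1 i) (fun i : Fin (m + 1) => fg'.2 i) := by
    intro m fg hfg
    have key : ∀ (x : N) (y : N'),
        STp (L := lang D) (Sum.elim (fun i : Fin m => fg.1 i) (fun _ : Fin 1 => x))
          (Sum.elim (fun i : Fin m => fg.2 i) (fun _ : Fin 1 => y)) →
        STp (L := lang D) (fun i : Fin (m + 1) => Function.update fg.1 m x i)
          (fun i : Fin (m + 1) => Function.update fg.2 m y i) := by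
      intro x y h
      have h2 := h.comp (fun i : Fin (m + 1) =>
        if h : (i : ℕ) < m then (Sum.inl (⟨i, h⟩ : Fin m) : Fin m ⊕ Fin 1) else Sum.inr 0)
      convert h2 using 1
      · funext i
        by_cases h : (i : ℕ) < m
        · simp [h, Function.update, h.ne]
        · have h' : (i : ℕ) = m := by omega
          simp [h', Function.update]
      · funext i
        by_cases h : (i : ℕ) < m
        · simp [h, Function.update, h.ne]
        · have h' : (i : ℕ) = m := by omega
          simp [h', Function.update]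
    rcases Nat.even_or_odd' m with ⟨n, hn | hn⟩
    · obtain ⟨t', ht'⟩ := P.stp_ext hN hN' hfg (fun _ : Fin 1 => e n)
      refine ⟨(Function.update fg.1 m (e n), Function.update fg.2 m (t' 0)), ?_, ?_, ?_, ?_⟩
      · intro i hi
        simp [Function.update, hi.ne]
      · intro n' hn'
        have : n' = n := by omega
        simp [this]
      · intro n' hn'
        omega
      · apply key
        convert ht' using 2
        funext i
        rw [Subsingleton.elim i 0]
    · obtain ⟨t', ht'⟩ := P.stp_ext hN' hN hfg.symm (fun _ : Fin 1 => e' n)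
      refine ⟨(Function.update fg.1 m (t' 0), Function.update fg.2 m (e' n)), ?_, ?_, ?_, ?_⟩
      · intro i hi
        simp [Function.update, hi.ne]
      · intro n' hn'
        omega
      · intro n' hn'
        have : n' = n := by omega
        simp [this]
      · apply key
        convert ht'.symm using 2
        funext i
        rw [Subsingleton.elim i 0]
  have h0 : STp (L := lang D) (fun i : Fin 0 => e i) (fun i : Fin 0 => e' i) := by
    obtain ⟨s, hs⟩ := P.cov hN (fun i : Fin 0 => e i)
    obtain ⟨s', hs'⟩ := P.cov hN' (fun i : Fin 0 => e' i)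
    have : s = s' := funext fun i => i.elim0
    subst this
    exact hs.symm.trans hs'
  let X : ℕ → Type := fun m => {fg : (ℕ → N) × (ℕ → N') //
    STp (L := lang D) (fun i : Fin m => fg.1 i) (fun i : Fin m => fg.2 i)}
  let F : ∀ m, X m := fun m => Nat.rec (motive := X) ⟨(e, e'), h0⟩
    (fun m f => ⟨(step m f.1 f.2).choose, (step m f.1 f.2).choose_spec.2.2.2⟩) m
  have hF : ∀ m, ∀ i < m, (F (m + 1)).1.1 i = (F m).1.1 i ∧ (F (m + 1)).1.2 i = (F m).1.2 i :=
    fun m i hi => (step m (F m).1 (F m).2).choose_spec.1 i hi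
  have hF2 : ∀ n m, m ≤ n → ∀ i < m, (F n).1.1 i = (F m).1.1 i ∧ (F n).1.2 i = (F m).1.2 i := by
    intro n m hmn
    induction hmn with
    | refl => intro i _; exact ⟨rfl, rfl⟩
    | step h ih =>
      intro i hi
      obtain ⟨h1, h2⟩ := hF _ i (lt_of_lt_of_le hi h)
      obtain ⟨h3, h4⟩ := ih i hi
      exact ⟨h1.trans h3, h2.trans h4⟩
  refine ⟨fun m => (F (m + 1)).1.1 m, fun m => (F (m + 1)).1.2 m, ?_, ?_, ?_⟩
  · intro m
    have h1 := (F m).2
    convert h1 using 1
    · funext i
      rw [(hF2 m (i + 1) i.2 i (Nat.lt_succ_self _)).1]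
    · funext i
      rw [(hF2 m (i + 1) i.2 i (Nat.lt_succ_self _)).2]
  · intro n
    exact (step (2 * n) (F (2 * n)).1 (F (2 * n)).2).choose_spec.2.1 n rfl
  · intro n
    exact (step (2 * n + 1) (F (2 * n + 1)).1 (F (2 * n + 1)).2).choose_spec.2.2.1 n rfl

theorem Geo.iso {N N' : Type} [(lang D).Structure N] [(lang D).Structure N']
    (hN : N ⊨ P.T) (hN' : N' ⊨ P.T) (hc : Countable N) (hc' : Countable N')
    (hne : Nonempty N) (hne' : Nonempty N') : Nonempty (N ≃[lang D] N') := by
  classical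
  obtain ⟨e, he⟩ := exists_surjective_nat N
  obtain ⟨e', he'⟩ := exists_surjective_nat N'
  obtain ⟨f, g, h1, h2, h3⟩ := P.backforth hN hN' e e'
  have hsub : ∀ {α : Type} [Finite α] (i : α → ℕ),
      STp (L := lang D) (fun a => f (i a)) (fun a => g (i a)) := by
    intro α _ i
    obtain ⟨M, hM⟩ : ∃ M : ℕ, ∀ a, i a < M := by
      obtain ⟨M, hM⟩ := (Set.finite_range i).bddAbove
      exact ⟨M + 1, fun a => Nat.lt_succ_of_le (hM ⟨a, rfl⟩)⟩
    exact (h1 M).comp (fun a => (⟨i a, hM a⟩ : Fin M))
  have hf : ∀ x, ∃ n, f n = x := fun x => by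
    obtain ⟨n, hn⟩ := he x
    exact ⟨2 * n, (h2 n).trans hn⟩
  have hg : ∀ x, ∃ n, g n = x := fun x => by
    obtain ⟨n, hn⟩ := he' x
    exact ⟨2 * n + 1, (h3 n).trans hn⟩
  have hfg : ∀ i j, f i = f j ↔ g i = g j := by
    intro i j
    have h4 := hsub ![i, j]
    constructor
    · intro h
      exact h4.eq (i := 0) (j := 1) h
    · intro h
      exact h4.symm.eq (i := 0) (j := 1) h
  choose nf hnf using hf
  choose ng hng using hg
  refine ⟨⟨⟨fun x => g (nf x), fun y => f (ng y), ?_, ?_⟩, ?_, ?_⟩⟩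
  · intro x
    have : f (ng (g (nf x))) = f (nf x) := (hfg _ _).2 (hng _)
    show f (ng (g (nf x))) = x
    rw [this, hnf]
  · intro y
    have : g (nf (f (ng y))) = g (ng y) := (hfg _ _).1 (hnf _)
    show g (nf (f (ng y))) = y
    rw [this, hng]
  · intro n F
    exact F.elim
  · intro n r x
    have h5 := hsub (fun a => nf (x a)) (Relations.formula r (fun i => Term.var i))
    rw [Formula.realize_rel, Formula.realize_rel] at h5
    simp only [Term.realize_var, hnf] at h5
    exact h5.symm

theorem Geo.categorical : Cardinal.Categorical (Cardinal.aleph0 : Cardinal.{0}) P.T := by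
  intro M N hM hN
  have hM' : Countable M := Cardinal.mk_le_aleph0_iff.1 hM.le
  have hN' : Countable N := Cardinal.mk_le_aleph0_iff.1 hN.le
  exact P.iso M.is_model N.is_model hM' hN' inferInstance inferInstance

theorem lang_card [Countable D] : (lang D).card ≤ Cardinal.aleph0 := by
  have h1 : Countable (Σ l, (lang D).Functions l) := by
    have : ∀ l, IsEmpty ((lang D).Functions l) := fun l => inferInstanceAs (IsEmpty Empty)
    infer_instance
  have h2 : Countable (Σ l, (lang D).Relations l) := by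
    have : ∀ l, Countable ((lang D).Relations l) := fun l =>
      inferInstanceAs (Countable (Fin l → D))
    infer_instance
  have h3 : Countable (lang D).Symbols := by
    unfold Language.Symbols
    infer_instance
  exact Cardinal.mk_le_aleph0_iff.2 h3

end

end Run7.h520.LW
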